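import Mathlib

set_option autoImplicit false

/-! A coherent sequence of finite-to-one functions (copied from `Pool.Agent.Helper570.Coherent`). -/

namespace Pool.Agent.Helper330.DPK.Coh

open Cardinal Ordinal Set

/-- The well-ordered set of type `ω₁`. -/
abbrev W : Type := (Cardinal.aleph 1).ord.ToType

instance : NoMaxOrder W := Cardinal.noMaxOrder (Cardinal.aleph0_le_aleph 1)

instance : Nonempty W := by
  have : (Cardinal.aleph 1).ord ≠ 0 := by
    simp only [Cardinal.ord_aleph]
    exact (Ordinal.omega_pos 1).ne'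
  exact Ordinal.nonempty_toType_iff.2 this

theorem countable_Iio (a : W) : (Set.Iio a).Countable := by
  have h := Cardinal.mk_Iio_lt (α := W) a (by simp)
  rw [Cardinal.mk_toType, Cardinal.card_ord, Cardinal.lt_aleph_one_iff] at h
  exact Cardinal.le_aleph0_iff_set_countable.1 h

theorem countable_Iic (a : W) : (Set.Iic a).Countable := by
  have : Set.Iic a = Set.Iio a ∪ {a} := by
    ext x; simp [le_iff_lt_or_eq]
  rw [this]
  exact (countable_Iio a).union (Set.countable_singleton a)

/-- Requirement on the new function at level `a`. -/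
structure CG (a : W) (g : W → ℕ) (prev : ∀ b, b < a → (W → ℕ)) : Prop where
  fin : ∀ m, {x | x < a ∧ g x ≤ m}.Finite
  coh : ∀ b (hb : b < a), {x | x < b ∧ g x ≠ prev b hb x}.Finite

theorem CG_exists (a : W) (g : W → W → ℕ) (hfin : ∀ b, b < a → ∀ m, {x | x < b ∧ g b x ≤ m}.Finite)
    (hcoh : ∀ b, b < a → ∀ c, c < b → {x | x < c ∧ g b x ≠ g c x}.Finite) :
    ∃ g', CG a g' (fun b _ => g b) := by
  classical
  rcases (Set.Iio a).eq_empty_or_nonempty with h0 | h0
  · refine ⟨fun _ => 0, ?_, ?_⟩
    · intro m
      have : {x | x < a ∧ (0 : ℕ) ≤ m} = (∅ : Set W) := by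
        ext x
        simp only [Set.mem_ofPred_eq, Set.mem_empty_iff_false, iff_false, not_and]
        intro hx
        have : x ∈ Set.Iio a := hx
        rw [h0] at this
        exact absurd this (Set.notMem_empty _)
      rw [this]; exact Set.finite_empty
    · intro b hb
      have : b ∈ Set.Iio a := hb
      rw [h0] at this
      exact absurd this (Set.notMem_empty _)
  obtain ⟨e, he⟩ := (countable_Iio a).exists_eq_range h0
  have hea : ∀ n, e n < a := fun n => by
    have : e n ∈ Set.Iio a := he ▸ Set.mem_range_self n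
    exact this
  let s : ℕ → W := fun n => Nat.rec (motive := fun _ => W) (e 0) (fun k r => max r (e (k + 1))) n
  have hs0 : s 0 = e 0 := rfl
  have hs1 : ∀ n, s (n + 1) = max (s n) (e (n + 1)) := fun n => rfl
  have hsa : ∀ n, s n < a := by
    intro n
    induction n with
    | zero => exact hea 0
    | succ n ih => rw [hs1]; exact max_lt ih (hea _)
  have hse : ∀ n, e n ≤ s n := by
    intro n
    cases n with
    | zero => exact le_rfl
    | succ n => rw [hs1]; exact le_max_right _ _
  have hcof : ∀ x, x < a → ∃ n, x ≤ s n := by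
    intro x hx
    have : x ∈ Set.range e := he ▸ hx
    obtain ⟨n, rfl⟩ := this
    exact ⟨n, hse n⟩
  let N : W → ℕ := fun x => sInf {n : ℕ | x ≤ s n}
  have hN : ∀ x, x < a → x ≤ s (N x) := fun x hx => Nat.sInf_mem (hcof x hx)
  have hNle : ∀ x n, x ≤ s n → N x ≤ n := fun x n hx => Nat.sInf_le hx
  obtain ⟨g', hg'⟩ : ∃ g' : W → ℕ, ∀ x : W, g' x =
      max (N x) (@ite ℕ (x = s (N x)) (Classical.propDecidable _) 0 (g (s (N x)) x)) :=
    ⟨_, fun x => rfl⟩
  have hD : ∀ b c, b < a → c < a → {x | x < b ∧ x < c ∧ g b x ≠ g c x}.Finite := by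
    intro b c hb hc
    rcases lt_trichotomy b c with h | h | h
    · apply (hcoh c hc b h).subset
      rintro x ⟨h1, h2, h3⟩
      exact ⟨h1, fun h4 => h3 h4.symm⟩
    · subst h
      convert Set.finite_empty (α := W)
      ext x
      simp
    · apply (hcoh b hb c h).subset
      rintro x ⟨h1, h2, h3⟩
      exact ⟨h2, h3⟩
  refine ⟨g', ?_, ?_⟩
  · intro m
    have hfin2 : (⋃ n ∈ Set.Iic m, ({s n} ∪ {x | x < s n ∧ g (s n) x ≤ m})).Finite := by
      apply (Set.finite_Iic m).biUnion
      intro n _
      exact (Set.finite_singleton _).union (hfin (s n) (hsa n) m)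
    apply hfin2.subset
    rintro x ⟨hx, hgx⟩
    rw [hg'] at hgx
    have h1 : N x ≤ m := (le_max_left _ _).trans hgx
    have h2 := (le_max_right _ _).trans hgx
    simp only [Set.mem_iUnion]
    refine ⟨N x, h1, ?_⟩
    rcases Classical.em (x = s (N x)) with h3 | h3
    · left; exact h3
    · right
      rw [if_neg h3] at h2
      exact ⟨lt_of_le_of_ne (hN x hx) h3, h2⟩
  · intro b hb
    obtain ⟨n0, hn0⟩ := hcof b hb
    have hfin2 : (⋃ n ∈ Set.Iic n0, ({s n} ∪ {x | x < s n ∧ g (s n) x ≤ n} ∪
        {x | x < s n ∧ x < b ∧ g (s n) x ≠ g b x})).Finite := by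
      apply (Set.finite_Iic n0).biUnion
      intro n _
      exact ((Set.finite_singleton _).union (hfin (s n) (hsa n) n)).union
        (hD (s n) b (hsa n) hb)
    apply hfin2.subset
    rintro x ⟨hx, hgx⟩
    have hxa : x < a := hx.trans hb
    have h1 : N x ≤ n0 := hNle x n0 (hx.le.trans hn0)
    simp only [Set.mem_iUnion]
    refine ⟨N x, h1, ?_⟩
    rcases Classical.em (x = s (N x)) with h3 | h3
    · left; left; exact h3
    have h4 : x < s (N x) := lt_of_le_of_ne (hN x hxa) h3
    rcases le_or_gt (g (s (N x)) x) (N x) with h5 | h5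
    · left; right; exact ⟨h4, h5⟩
    · right
      refine ⟨h4, hx, ?_⟩
      rw [hg', if_neg h3, max_eq_right h5.le] at hgx
      exact hgx

open Classical in
/-- A coherent family of finite-to-one functions on the countable ordinals. -/
noncomputable def cg : W → (W → ℕ) :=
  (wellFounded_lt (α := W)).fix (fun a prev => if h : ∃ g', CG a g' prev then h.choose else fun _ => 0)

open Classical in
theorem cg_eq (a : W) : cg a =
    if h : ∃ g', CG a g' (fun b _ => cg b) then h.choose else fun _ => 0 :=
  (wellFounded_lt (α := W)).fix_eq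
    (fun a prev => if h : ∃ g', CG a g' prev then h.choose else fun _ => 0) a

theorem cg_spec (a : W) : CG a (cg a) (fun b _ => cg b) := by
  classical
  induction a using WellFoundedLT.induction with
  | ind a ih =>
  have h : ∃ g', CG a g' (fun b _ => cg b) :=
    CG_exists a cg (fun b hb => (ih b hb).fin) (fun b hb => (ih b hb).coh)
  rw [cg_eq, dif_pos h]
  exact h.choose_spec

theorem cg_fin (a : W) (m : ℕ) : {x | x < a ∧ cg a x ≤ m}.Finite := (cg_spec a).fin m

theorem cg_coh (a b : W) : {x | x < a ∧ x < b ∧ cg a x ≠ cg b x}.Finite := by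
  rcases lt_trichotomy a b with h | h | h
  · apply ((cg_spec b).coh a h).subset
    rintro x ⟨h1, h2, h3⟩
    exact ⟨h1, fun h4 => h3 h4.symm⟩
  · subst h
    convert Set.finite_empty (α := W)
    ext x
    simp
  · apply ((cg_spec a).coh b h).subset
    rintro x ⟨h1, h2, h3⟩
    exact ⟨h2, h3⟩

end Pool.Agent.Helper330.DPK.Coh
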