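import Mathlib

set_option autoImplicit false
set_option linter.all false

/-!
# Compact images of the space of continuous functions on a linearly ordered compact space

Definitions for the construction of a linearly ordered compact space `K` such that `C_p(K)` maps
continuously onto a nonmetrizable compact space, from a family of Kurepa type with finitely
deciding sequences (`KF` below).
-/

namespace Pool.Agent.Helper330.DPK

open Set Filter Topology

/-- The well-ordered set of the ordinals below `ω₁`. -/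
abbrev W1 : Type := (Cardinal.aleph 1 : Cardinal.{0}).ord.ToType

/-- A linear order with a sequence of convex equivalence relations having countably many classes,
and functions `v · ξ` constant on the classes of the relation `E ξ`. -/
structure Sys (I : Type) [LinearOrder I] (W : Type) where
  E : W → I → I → Prop
  eqv : ∀ ξ, Equivalence (E ξ)
  conv : ∀ ξ s r t, s ≤ r → r ≤ t → E ξ s t → E ξ s r
  cnt : ∀ ξ, ∃ c : I → ℕ, ∀ s t, c s = c t → E ξ s t
  v : I → W → ℕ
  hv : ∀ ξ s t, E ξ s t → v s ξ = v t ξ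

instance topLow (I : Type) [LinearOrder I] : TopologicalSpace (LowerSet I) :=
  Preorder.topology (LowerSet I)

instance ordTopLow (I : Type) [LinearOrder I] : OrderTopology (LowerSet I) := ⟨rfl⟩

section

variable {I : Type} [LinearOrder I] {W : Type}

open Classical in
/-- The function on the space of the lower sets given by a sequence. -/
noncomputable def F (b : ℕ → I) (x : LowerSet I) : ℝ :=
  Cardinal.cantorFunction (1 / 4) (fun n => decide (b n ∈ x))

/-- The lower set of the points below the class of `s`. -/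
def Sys.xm (S : Sys I W) (ξ : W) (s : I) : LowerSet I where
  carrier := {r | r < s ∧ ¬ S.E ξ r s}
  lower' := by
    intro r r' hr h
    refine ⟨lt_of_le_of_lt hr h.1, fun hE => h.2 ?_⟩
    exact (S.eqv ξ).trans ((S.eqv ξ).symm (S.conv ξ r' r s hr h.1.le hE)) hE

/-- The lower set of the points not above the class of `s`. -/
def Sys.xp (S : Sys I W) (ξ : W) (s : I) : LowerSet I where
  carrier := {r | r ≤ s ∨ S.E ξ r s}
  lower' := by
    intro r r' hr h
    rcases le_or_gt r' s with h' | h'
    · exact Or.inl h'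
    · rcases h with h | h
      · exact absurd (lt_of_lt_of_le h' (hr.trans h)) (lt_irrefl _)
      · exact Or.inr ((S.eqv ξ).symm (S.conv ξ s r' r h'.le hr ((S.eqv ξ).symm h)))

/-- The countable set of points attached to `ξ`. -/
def Sys.Aset (S : Sys I W) (ξ : W) : Set (LowerSet I) :=
  {x | x = ⊥ ∨ x = ⊤ ∨ ∃ s, x = S.xm ξ s ∨ x = S.xp ξ s}

end

/-! ### The combinatorial part -/

/-- There is a set `S` of functions `ω₁ → ℕ` with countably many restrictions to every countable
ordinal such that for every `X ⊆ ω₁` there is a sequence `b` of members of `S` such that for all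
`x` the value `b (b 0 x + 1) x` is `1` if `x ∈ X` and `0` otherwise. -/
def KF : Prop :=
  ∃ S : Set (W1 → ℕ),
    (∀ a, ∃ c : (W1 → ℕ) → ℕ, ∀ s ∈ S, ∀ t ∈ S, c s = c t → ∀ x, x ≤ a → s x = t x) ∧
    ∀ X : W1 → Prop, ∃ b : ℕ → W1 → ℕ, (∀ n, b n ∈ S) ∧
      ∀ x, (X x → b (b 0 x + 1) x = 1) ∧ (¬ X x → b (b 0 x + 1) x = 0)

/-- `C` is closed and unbounded, and `X ∩ a` and `C ∩ a` are in the family of `a` for all
`a ∈ C`. -/
def Captured (B : W1 → ℕ → W1 → Prop) (X C : W1 → Prop) : Prop :=
  (∀ a, ∃ b, a < b ∧ C b) ∧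
  (∀ a, (∃ b, b < a) → (∀ b, b < a → ∃ c, (b < c ∧ c < a) ∧ C c) → C a) ∧
  ∀ a, C a → (∃ n, ∀ x, x < a → (X x ↔ B a n x)) ∧ (∃ n, ∀ x, x < a → (C x ↔ B a n x))

/-- The principle `◊⁺`. -/
def DiamondPlus : Prop :=
  ∃ B : W1 → ℕ → W1 → Prop, ∀ X : W1 → Prop, ∃ C : W1 → Prop,
    (∀ a, ∃ b, a < b ∧ C b) ∧
    (∀ a, (∃ b, b < a) → (∀ b, b < a → ∃ c, (b < c ∧ c < a) ∧ C c) → C a) ∧
    ∀ a, C a →
      (∃ n, ∀ x, x < a → (X x ↔ B a n x)) ∧ (∃ n, ∀ x, x < a → (C x ↔ B a n x))

open Classical in
/-- The least member of `C` above `x`. -/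
noncomputable def cplus (C : W1 → Prop) (x : W1) : W1 :=
  if h : {c | x < c ∧ C c}.Nonempty then (wellFounded_lt (α := W1)).min {c | x < c ∧ C c} h
  else x

/-- The first function of the sequence given by `C`. -/
noncomputable def b0 (e : W1 → W1 → ℕ) (C : W1 → Prop) (x : W1) : ℕ := e (cplus C x) x

open Classical in
/-- The other functions of the sequence given by `X` and `C`. -/
noncomputable def b1 (e : W1 → W1 → ℕ) (X C : W1 → Prop) (n : ℕ) (x : W1) : ℕ :=
  if X x ∧ b0 e C x = n then 1 else 0

/-- The family of functions. -/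
def SK (e : W1 → W1 → ℕ) (B : W1 → ℕ → W1 → Prop) : Set (W1 → ℕ) :=
  {s | ∃ X C, Captured B X C ∧ (s = b0 e C ∨ ∃ n, s = b1 e X C n)}

open Classical in
/-- The functions with countably many possibilities below `a`. -/
noncomputable def base (e : W1 → W1 → ℕ) (B : W1 → ℕ → W1 → Prop) (a δ : W1) (m m' : ℕ)
    (i : Option ℕ) (G : Finset (W1 × ℕ)) (x : W1) : ℕ :=
  if h : ∃ k, (x, k) ∈ G then h.choose
  else if x < δ then
    (match i with
      | none => b0 e (fun c => c = δ ∨ (c < δ ∧ B δ m' c)) x
      | some n => b1 e (B δ m) (fun c => c = δ ∨ (c < δ ∧ B δ m' c)) n x)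
  else (match i with
      | none => e a x
      | some _ => 0)

end Pool.Agent.Helper330.DPK
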