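import Pool.Agent.Helper330.DPK.Defs

set_option autoImplicit false
set_option linter.all false

/-!
# Compact images of the space of continuous functions on a linearly ordered compact space

Definitions for the construction of a linearly ordered compact space `K` such that `C_p(K)` maps
continuously onto a nonmetrizable compact space, from a family of Kurepa type with finitely
deciding sequences (`KF` below).
-/

namespace Pool.Agent.Helper330.DPK
open Set Filter Topology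


theorem approx_spec (C : W1 → Prop) (x : W1) (h : ∃ c, x < c ∧ C c) :
    x < cplus C x ∧ C (cplus C x) ∧ ∀ c, x < c → C c → cplus C x ≤ c := by
  have h' : {c | x < c ∧ C c}.Nonempty := h
  have e : cplus C x = (wellFounded_lt (α := W1)).min {c | x < c ∧ C c} h' := by
    unfold cplus
    rw [dif_pos h']
  rw [e]
  have hm := (wellFounded_lt (α := W1)).min_mem {c | x < c ∧ C c} h'
  refine ⟨hm.1, hm.2, fun c hc1 hc2 => ?_⟩
  exact not_lt.1 ((wellFounded_lt (α := W1)).not_lt_min {c | x < c ∧ C c} ⟨hc1, hc2⟩)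

theorem approx_eq (C : W1 → Prop) (x m : W1) (h1 : x < m) (h2 : C m)
    (h3 : ∀ c, x < c → C c → m ≤ c) : cplus C x = m := by
  obtain ⟨a1, a2, a3⟩ := approx_spec C x ⟨m, h1, h2⟩
  exact le_antisymm (a3 m h1 h2) (h3 _ a1 a2)

theorem approx_delta (C : W1 → Prop)
    (hC' : ∀ a, (∃ b, b < a) → (∀ b, b < a → ∃ c, (b < c ∧ c < a) ∧ C c) → C a) (a : W1) :
    ∃ δ, δ ≤ a ∧ ((∀ x, δ ≤ x) ∨ C δ) ∧ ∀ c, δ < c → c ≤ a → ¬ C c := by
  by_cases hex : ∃ c, c ≤ a ∧ C c
  · have hne : {u : W1 | ∀ c, c ≤ a → C c → c ≤ u}.Nonempty := ⟨a, fun c hc _ => hc⟩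
    set s0 := (wellFounded_lt (α := W1)).min {u : W1 | ∀ c, c ≤ a → C c → c ≤ u} hne with hs0
    have hm : ∀ c, c ≤ a → C c → c ≤ s0 :=
      (wellFounded_lt (α := W1)).min_mem {u : W1 | ∀ c, c ≤ a → C c → c ≤ u} hne
    have hmin : ∀ u, (∀ c, c ≤ a → C c → c ≤ u) → s0 ≤ u := fun u hu =>
      not_lt.1 ((wellFounded_lt (α := W1)).not_lt_min
        {u : W1 | ∀ c, c ≤ a → C c → c ≤ u} hu)
    have hs0a : s0 ≤ a := hmin a fun c hc _ => hc
    have hCs0 : C s0 := by
      by_contra hn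
      have hlt : ∀ c, c ≤ a → C c → c < s0 := fun c hc hcc =>
        lt_of_le_of_ne (hm c hc hcc) (fun h => hn (h ▸ hcc))
      apply hn
      apply hC' s0
      · obtain ⟨c, hc, hcc⟩ := hex
        exact ⟨c, hlt c hc hcc⟩
      · intro b hb
        by_contra hcon
        have : s0 ≤ b := by
          apply hmin
          intro c hc hcc
          by_contra hbc
          exact hcon ⟨c, ⟨not_le.1 hbc, hlt c hc hcc⟩, hcc⟩
        exact absurd hb (not_lt.2 this)
    refine ⟨s0, hs0a, Or.inr hCs0, ?_⟩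
    intro c hc1 hc2 hc3
    exact absurd hc1 (not_lt.2 (hm c hc2 hc3))
  · have hne : (Set.univ : Set W1).Nonempty := ⟨a, trivial⟩
    have hmin : ∀ u, (wellFounded_lt (α := W1)).min Set.univ hne ≤ u := fun u =>
      not_lt.1 ((wellFounded_lt (α := W1)).not_lt_min Set.univ (Set.mem_univ u))
    refine ⟨(wellFounded_lt (α := W1)).min Set.univ hne, hmin a, Or.inl hmin, ?_⟩
    intro c _ hc2 hc3
    exact hex ⟨c, hc2, hc3⟩

theorem approx (e : W1 → W1 → ℕ) (he : ∀ a m, {x | x < a ∧ e a x ≤ m}.Finite)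
    (hc : ∀ a b, {x | x < a ∧ x < b ∧ e a x ≠ e b x}.Finite) (C : W1 → Prop)
    (hC : ∀ a, ∃ b, a < b ∧ C b)
    (hC' : ∀ a, (∃ b, b < a) → (∀ b, b < a → ∃ c, (b < c ∧ c < a) ∧ C c) → C a) (a : W1) :
    ∃ δ, δ ≤ a ∧ ((∀ x, δ ≤ x) ∨ C δ) ∧
      (∀ x, x < δ → ∀ C' : W1 → Prop, (∀ c, c < δ → (C c ↔ C' c)) →
        cplus C x = cplus (fun c => c = δ ∨ (c < δ ∧ C' c)) x) ∧
      {x | δ ≤ x ∧ x ≤ a ∧ b0 e C x ≠ e a x}.Finite ∧
      ∀ n, {x | δ ≤ x ∧ x ≤ a ∧ b0 e C x = n}.Finite := by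
  obtain ⟨δ, hδa, hδ, hno⟩ := approx_delta C hC' a
  obtain ⟨d1, d2, d3⟩ := approx_spec C a (hC a)
  have hval : ∀ x, δ ≤ x → x ≤ a → cplus C x = cplus C a := by
    intro x h1 h2
    refine approx_eq C x _ (lt_of_le_of_lt h2 d1) d2 ?_
    intro c hc1 hc2
    apply d3 c _ hc2
    by_contra hca
    exact hno c (lt_of_le_of_lt h1 hc1) (not_lt.1 hca) hc2
  refine ⟨δ, hδa, hδ, ?_, ?_, ?_⟩
  · intro x hx C' hCC
    have hCδ : C δ := by
      rcases hδ with h | h
      · exact absurd hx (not_lt.2 (h x))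
      · exact h
    obtain ⟨a1, a2, a3⟩ := approx_spec C x ⟨δ, hx, hCδ⟩
    symm
    refine approx_eq _ x _ a1 ?_ ?_
    · have hle := a3 δ hx hCδ
      rcases eq_or_lt_of_le hle with h | h
      · exact Or.inl h
      · exact Or.inr ⟨h, (hCC _ h).1 a2⟩
    · rintro c hc1 (rfl | ⟨hc2, hc3⟩)
      · exact a3 _ hc1 hCδ
      · exact a3 c hc1 ((hCC c hc2).2 hc3)
  · refine ((hc a (cplus C a)).union (Set.finite_singleton a)).subset ?_
    rintro x ⟨h1, h2, h3⟩
    rcases eq_or_lt_of_le h2 with h | h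
    · exact Or.inr h
    · left
      refine ⟨h, lt_of_le_of_lt h2 d1, ?_⟩
      intro h4
      apply h3
      unfold b0
      rw [hval x h1 h2]
      exact h4.symm
  · intro n
    refine (he (cplus C a) n).subset ?_
    rintro x ⟨h1, h2, h3⟩
    refine ⟨lt_of_le_of_lt h2 d1, ?_⟩
    unfold b0 at h3
    rw [hval x h1 h2] at h3
    exact h3.le

end Pool.Agent.Helper330.DPK
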