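import Pool.Agent.Helper330.DPK.Defs

set_option autoImplicit false
set_option linter.all false

/-!
# Compact images of the space of continuous functions on a linearly ordered compact space

Definitions for the construction of a linearly ordered compact space `K` such that `C_p(K)` maps
continuously onto a nonmetrizable compact space, from a family of Kurepa type with finitely
deciding sequences (`KF` below).
-/

namespace Pool.Agent.Helper330.DPK
open Set Filter Topology


theorem binary (r : ℝ) (h0 : 0 ≤ r) (h1 : r ≤ 1) :
    ∃ d : ℕ → Bool, r = ∑' n, (1 / 2 : ℝ) ^ (n + 1) * (if d n then 1 else 0) := by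
  classical
  obtain ⟨x, hx0, hx⟩ : ∃ x : ℕ → ℝ, x 0 = r ∧
      ∀ n, x (n + 1) = 2 * x n - (if 1 / 2 ≤ x n then 1 else 0) :=
    ⟨fun n => Nat.rec r (fun _ y => 2 * y - (if 1 / 2 ≤ y then 1 else 0)) n, rfl, fun _ => rfl⟩
  have hb : ∀ n, 0 ≤ x n ∧ x n ≤ 1 := by
    intro n
    induction n with
    | zero => rw [hx0]; exact ⟨h0, h1⟩
    | succ n ih =>
      rw [hx]
      split_ifs with h
      · constructor <;> linarith [ih.1, ih.2]
      · push Not at h
        constructor <;> linarith [ih.1, ih.2]
  have hsum : ∀ n, ∑ k ∈ Finset.range n, (1 / 2 : ℝ) ^ (k + 1) *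
      (if (decide (1 / 2 ≤ x k)) then 1 else 0) = r - (1 / 2) ^ n * x n := by
    intro n
    induction n with
    | zero => simp [hx0]
    | succ n ih =>
      rw [Finset.sum_range_succ, ih, hx]
      by_cases h : 1 / 2 ≤ x n
      · simp only [h, decide_true, if_true]
        ring
      · simp only [h, decide_false, if_false]
        simp
        ring
  refine ⟨fun n => decide (1 / 2 ≤ x n), ?_⟩
  symm
  apply HasSum.tsum_eq
  rw [hasSum_iff_tendsto_nat_of_nonneg]
  · simp only [hsum]
    have h2 : Tendsto (fun n : ℕ => (1 / 2 : ℝ) ^ n * x n) atTop (𝓝 0) := by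
      have h3 : Tendsto (fun n : ℕ => (1 / 2 : ℝ) ^ n) atTop (𝓝 0) :=
        tendsto_pow_atTop_nhds_zero_of_lt_one (by norm_num) (by norm_num)
      apply squeeze_zero (fun n => mul_nonneg (by positivity) (hb n).1) _ h3
      intro n
      exact mul_le_of_le_one_right (by positivity) (hb n).2
    simpa using h2.const_sub r
  · intro i
    split_ifs <;> positivity

end Pool.Agent.Helper330.DPK
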