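import Pool.Agent.Helper330.DPK.Defs

set_option autoImplicit false
set_option linter.all false

/-!
# Compact images of the space of continuous functions on a linearly ordered compact space

Definitions for the construction of a linearly ordered compact space `K` such that `C_p(K)` maps
continuously onto a nonmetrizable compact space, from a family of Kurepa type with finitely
deciding sequences (`KF` below).
-/

namespace Pool.Agent.Helper330.DPK
open Set Filter Topology


theorem gapF {I : Type} [LinearOrder I] (b : ℕ → I) {x y : LowerSet I} (hxy : x ≤ y) (n : ℕ)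
    (hx : b n ∉ x) (hy : b n ∈ y) : F b x + (1 / 4) ^ n ≤ F b y := by
  classical
  have hs : ∀ z : LowerSet I, Summable
      (Cardinal.cantorFunctionAux (1 / 4) (fun n => decide (b n ∈ z))) := fun z =>
    Cardinal.summable_cantor_function _ (by norm_num) (by norm_num)
  have hd := (hs y).sub (hs x)
  have h1 := hd.le_tsum n (by
    intro m _
    rw [sub_nonneg]
    by_cases hm : b m ∈ x
    · have hm' : b m ∈ y := hxy hm
      simp [Cardinal.cantorFunctionAux, hm, hm']
    · have : Cardinal.cantorFunctionAux (1 / 4) (fun n => decide (b n ∈ x)) m = 0 := by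
        simp [Cardinal.cantorFunctionAux, hm]
      rw [this]
      exact Cardinal.cantorFunctionAux_nonneg (by norm_num))
  rw [(hs y).tsum_sub (hs x)] at h1
  have h2 : Cardinal.cantorFunctionAux (1 / 4) (fun n => decide (b n ∈ y)) n = (1 / 4) ^ n := by
    simp [Cardinal.cantorFunctionAux, hy]
  have h3 : Cardinal.cantorFunctionAux (1 / 4) (fun n => decide (b n ∈ x)) n = 0 := by
    simp [Cardinal.cantorFunctionAux, hx]
  rw [h2, h3, sub_zero] at h1
  have hFy : F b y = ∑' m, Cardinal.cantorFunctionAux (1 / 4) (fun n => decide (b n ∈ y)) m := by
    unfold F Cardinal.cantorFunction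
    congr!
  have hFx : F b x = ∑' m, Cardinal.cantorFunctionAux (1 / 4) (fun n => decide (b n ∈ x)) m := by
    unfold F Cardinal.cantorFunction
    congr!
  rw [hFy, hFx]
  linarith

end Pool.Agent.Helper330.DPK
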