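import Pool.Agent.Helper330.DPK.Defs
import Pool.Agent.Helper330.DPK.P_gapF

set_option autoImplicit false
set_option linter.all false

/-!
# Compact images of the space of continuous functions on a linearly ordered compact space

Definitions for the construction of a linearly ordered compact space `K` such that `C_p(K)` maps
continuously onto a nonmetrizable compact space, from a family of Kurepa type with finitely
deciding sequences (`KF` below).
-/

namespace Pool.Agent.Helper330.DPK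
open Set Filter Topology


private theorem catchT_le {I : Type} [LinearOrder I] {x y : LowerSet I} {r : I} (hx : r ∉ x) (hy : r ∈ y) :
    x ≤ y := by
  intro z hz
  have h1 : z < r := by
    by_contra hle
    exact hx (x.lower (not_lt.mp hle) hz)
  exact y.lower h1.le hy

theorem catchT {I : Type} [LinearOrder I] {W : Type} (S : Sys I W) (ξ : W) {B : Type}
    (U : Ultrafilter B) (bb : B → ℕ → I) (g : LowerSet I → ℝ) (hg : Continuous g)
    (h : ∀ x ∈ S.Aset ξ, Tendsto (fun b => F (bb b) x) (U : Filter B) (𝓝 (g x))) (n : ℕ) :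
    ∃ t : I, ∀ᶠ b in (U : Filter B), S.E ξ (bb b n) t := by
  by_contra hcon
  have hne : ∀ t : I, ∀ᶠ b in (U : Filter B), ¬ S.E ξ (bb b n) t := by
    intro t
    rw [Ultrafilter.eventually_not]
    exact fun ht => hcon ⟨t, ht⟩
  let x0 : LowerSet I := ⟨{s | ∀ᶠ b in (U : Filter B), s < bb b n}, by
    intro s s' hs h1
    exact h1.mono fun b hb => lt_of_le_of_lt hs hb⟩
  have hx0 : ∀ s, s ∈ x0 ↔ ∀ᶠ b in (U : Filter B), s < bb b n := fun s => Iff.rfl
  have hout : ∀ s, s ∉ x0 → ∀ᶠ b in (U : Filter B), bb b n < s := by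
    intro s hs
    rw [hx0, ← Ultrafilter.eventually_not] at hs
    filter_upwards [hs, hne s] with b h1 h2
    refine lt_of_le_of_ne (not_lt.mp h1) (fun e => h2 ?_)
    rw [e]
    exact (S.eqv ξ).refl _
  have h1 : ∀ s, s ∈ x0 → ∀ᶠ b in (U : Filter B), bb b n ∉ S.xp ξ s := by
    intro s hs
    filter_upwards [(hx0 s).1 hs, hne s] with b hb1 hb2
    rintro (h3 | h3)
    · exact absurd hb1 (not_lt.mpr h3)
    · exact hb2 h3
  have h2 : ∀ s, s ∉ x0 → ∀ᶠ b in (U : Filter B), bb b n ∈ S.xm ξ s := by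
    intro s hs
    filter_upwards [hout s hs, hne s] with b hb1 hb2
    exact ⟨hb1, hb2⟩
  set Lp : Set (LowerSet I) := {x | x = ⊥ ∨ ∃ s ∈ x0, x = S.xp ξ s} with hLp
  set Rp : Set (LowerSet I) := {x | x = ⊤ ∨ ∃ s, s ∉ x0 ∧ x = S.xm ξ s} with hRp
  have hL : ∀ x ∈ Lp, (∀ᶠ b in (U : Filter B), bb b n ∉ x) ∧ x ∈ S.Aset ξ := by
    rintro x (rfl | ⟨s, hs, rfl⟩)
    · exact ⟨Eventually.of_forall fun b hb => LowerSet.notMem_bot hb, Or.inl rfl⟩
    · exact ⟨h1 s hs, Or.inr (Or.inr ⟨s, Or.inr rfl⟩)⟩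
  have hR : ∀ x ∈ Rp, (∀ᶠ b in (U : Filter B), bb b n ∈ x) ∧ x ∈ S.Aset ξ := by
    rintro x (rfl | ⟨s, hs, rfl⟩)
    · exact ⟨Eventually.of_forall fun b => LowerSet.mem_top, Or.inr (Or.inl rfl)⟩
    · exact ⟨h2 s hs, Or.inr (Or.inr ⟨s, Or.inl rfl⟩)⟩
  have gap : ∀ x ∈ Lp, ∀ y ∈ Rp, g x + (1 / 4) ^ n ≤ g y := by
    intro x hx y hy
    obtain ⟨hx1, hx2⟩ := hL x hx
    obtain ⟨hy1, hy2⟩ := hR y hy
    refine le_of_tendsto_of_tendsto ((h x hx2).add_const ((1 / 4 : ℝ) ^ n)) (h y hy2) ?_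
    filter_upwards [hx1, hy1] with b hb1 hb2
    exact gapF (bb b) (catchT_le hb1 hb2) n hb1 hb2
  have hlub : IsLUB Lp x0 := by
    constructor
    · rintro x (rfl | ⟨s, hs, rfl⟩)
      · exact bot_le
      · rintro r (hr | hr)
        · exact x0.lower hr hs
        · rcases le_or_gt r s with hrs | hrs
          · exact x0.lower hrs hs
          · show r ∈ x0
            rw [hx0]
            filter_upwards [(hx0 s).1 hs, hne s] with b hb1 hb2
            by_contra hle
            exact hb2 ((S.eqv ξ).symm (S.conv ξ s (bb b n) r hb1.le (not_lt.mp hle) ((S.eqv ξ).symm hr)))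
    · intro u hu s hs
      exact hu (Or.inr ⟨s, hs, rfl⟩) (Or.inl le_rfl)
  have hglb : IsGLB Rp x0 := by
    constructor
    · rintro x (rfl | ⟨s, hs, rfl⟩)
      · exact le_top
      · intro r hr
        obtain ⟨b, ⟨hb1, hb2⟩, hb3⟩ := (((hx0 r).1 hr).and (hout s hs)).and (hne s) |>.exists
        refine ⟨hb1.trans hb2, fun hE => hb3 ?_⟩
        exact (S.eqv ξ).trans ((S.eqv ξ).symm (S.conv ξ r (bb b n) s hb1.le hb2.le hE)) hE
    · intro l hl t ht
      by_contra hts
      exact lt_irrefl _ (hl (Or.inr ⟨t, hts, rfl⟩) ht).1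
  have hcL : x0 ∈ closure Lp := hlub.mem_closure ⟨⊥, Or.inl rfl⟩
  have hcR : x0 ∈ closure Rp := hglb.mem_closure ⟨⊤, Or.inl rfl⟩
  have hpos : (0 : ℝ) < (1 / 4) ^ n := by positivity
  have hnb : {x | |g x - g x0| < (1 / 4) ^ n / 2} ∈ 𝓝 x0 := by
    have hc : Continuous fun x => |g x - g x0| := (hg.sub continuous_const).abs
    refine (isOpen_lt hc continuous_const).mem_nhds ?_
    show |g x0 - g x0| < (1 / 4) ^ n / 2
    rw [sub_self, abs_zero]
    positivity
  obtain ⟨x, hx1, hx2⟩ := mem_closure_iff_nhds.1 hcL _ hnb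
  obtain ⟨y, hy1, hy2⟩ := mem_closure_iff_nhds.1 hcR _ hnb
  have h3 := gap x hx2 y hy2
  have h4 := abs_lt.1 (show |g x - g x0| < (1 / 4) ^ n / 2 from hx1)
  have h5 := abs_lt.1 (show |g y - g x0| < (1 / 4) ^ n / 2 from hy1)
  linarith [h4.1, h5.2]

end Pool.Agent.Helper330.DPK
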