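import Pool.Agent.Helper330.DPK.Defs

set_option autoImplicit false
set_option linter.all false

/-!
# Compact images of the space of continuous functions on a linearly ordered compact space

Definitions for the construction of a linearly ordered compact space `K` such that `C_p(K)` maps
continuously onto a nonmetrizable compact space, from a family of Kurepa type with finitely
deciding sequences (`KF` below).
-/

namespace Pool.Agent.Helper330.DPK
open Set Filter Topology


theorem cntA_xm {I : Type} [LinearOrder I] {W : Type} (S : Sys I W) (ξ : W) (s t : I)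
    (h : S.E ξ s t) : S.xm ξ s ≤ S.xm ξ t := by
  intro r hr
  obtain ⟨h1, h2⟩ := hr
  have h3 : ¬ S.E ξ r t := fun h4 => h2 ((S.eqv ξ).trans h4 ((S.eqv ξ).symm h))
  refine ⟨?_, h3⟩
  by_contra h4
  exact h3 ((S.eqv ξ).symm (S.conv ξ t r s (not_lt.1 h4) h1.le ((S.eqv ξ).symm h)))

theorem cntA_xp {I : Type} [LinearOrder I] {W : Type} (S : Sys I W) (ξ : W) (s t : I)
    (h : S.E ξ s t) : S.xp ξ s ≤ S.xp ξ t := by
  intro r hr
  rcases hr with h1 | h1
  · rcases le_or_gt r t with h2 | h2
    · exact Or.inl h2
    · exact Or.inr ((S.eqv ξ).symm (S.conv ξ t r s h2.le h1 ((S.eqv ξ).symm h)))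
  · exact Or.inr ((S.eqv ξ).trans h1 h)

theorem cntA_range {I α : Type*} (c : I → ℕ) (f : I → α) (h : ∀ s t, c s = c t → f s = f t) :
    (Set.range f).Countable := by
  classical
  rcases isEmpty_or_nonempty I with hI | hI
  · rw [Set.range_eq_empty]
    exact Set.countable_empty
  · have : Set.range f ⊆ Set.range (fun n : ℕ => f (Function.invFun c n)) := by
      rintro _ ⟨s, rfl⟩
      refine ⟨c s, h _ _ ?_⟩
      exact Function.invFun_eq ⟨s, rfl⟩
    exact (Set.countable_range _).mono this

theorem cntA {I : Type} [LinearOrder I] {W : Type} (S : Sys I W) (ξ : W) :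
    (S.Aset ξ).Countable := by
  obtain ⟨c, hc⟩ := S.cnt ξ
  have h1 : (Set.range (S.xm ξ)).Countable := cntA_range c _ fun s t hst =>
    le_antisymm (cntA_xm S ξ s t (hc s t hst)) (cntA_xm S ξ t s (hc t s hst.symm))
  have h2 : (Set.range (S.xp ξ)).Countable := cntA_range c _ fun s t hst =>
    le_antisymm (cntA_xp S ξ s t (hc s t hst)) (cntA_xp S ξ t s (hc t s hst.symm))
  refine (((Set.countable_singleton (⊥ : LowerSet I)).union
    (Set.countable_singleton ⊤)).union (h1.union h2)).mono ?_
  rintro x (hx | hx | ⟨s, hx | hx⟩)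
  · exact Or.inl (Or.inl hx)
  · exact Or.inl (Or.inr hx)
  · exact Or.inr (Or.inl ⟨s, hx.symm⟩)
  · exact Or.inr (Or.inr ⟨s, hx.symm⟩)

end Pool.Agent.Helper330.DPK
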