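import Pool.Agent.Helper330.DPK.Defs

set_option autoImplicit false
set_option linter.all false

/-!
# Compact images of the space of continuous functions on a linearly ordered compact space

Definitions for the construction of a linearly ordered compact space `K` such that `C_p(K)` maps
continuously onto a nonmetrizable compact space, from a family of Kurepa type with finitely
deciding sequences (`KF` below).
-/

namespace Pool.Agent.Helper330.DPK
open Set Filter Topology


theorem isClopenMem {I : Type} [LinearOrder I] (s : I) : IsClopen {x : LowerSet I | s ∈ x} := by
  constructor
  · rw [← isOpen_compl_iff]
    have e : {x : LowerSet I | s ∈ x}ᶜ = {x : LowerSet I | x < LowerSet.Iic s} := by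
      ext x
      simp only [mem_compl_iff, mem_setOf_eq]
      constructor
      · intro h
        refine lt_of_le_not_ge ?_ ?_
        · intro r hr
          change r ≤ s
          by_contra hc
          exact h (x.lower (not_le.mp hc).le hr)
        · intro h2
          exact h (h2 (le_refl s : s ∈ LowerSet.Iic s))
      · intro h h2
        apply h.not_ge
        intro r hr
        exact x.lower (hr : r ≤ s) h2
    rw [e]
    exact isOpen_gt' _
  · have e : {x : LowerSet I | s ∈ x} = {x : LowerSet I | LowerSet.Iio s < x} := by
      ext x
      simp only [mem_setOf_eq]
      constructor
      · intro h
        refine lt_of_le_not_ge ?_ ?_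
        · intro r hr
          exact x.lower (le_of_lt (hr : r < s)) h
        · intro h2
          exact lt_irrefl s (h2 h : s ∈ LowerSet.Iio s)
      · intro h
        by_contra hc
        apply h.not_ge
        intro r hr
        change r < s
        by_contra hrs
        exact hc (x.lower (not_lt.mp hrs) hr)
    rw [e]
    exact isOpen_lt' _

end Pool.Agent.Helper330.DPK
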