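import Pool.Agent.Helper330.DPK.Defs
import Pool.Agent.Helper330.DPK.P_isClopenMem

set_option autoImplicit false
set_option linter.all false

/-!
# Compact images of the space of continuous functions on a linearly ordered compact space

Definitions for the construction of a linearly ordered compact space `K` such that `C_p(K)` maps
continuously onto a nonmetrizable compact space, from a family of Kurepa type with finitely
deciding sequences (`KF` below).
-/

namespace Pool.Agent.Helper330.DPK
open Set Filter Topology


theorem contF {I : Type} [LinearOrder I] (b : ℕ → I) : Continuous (F b) := by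
  have hterm : ∀ (n : ℕ) (x : LowerSet I),
      Cardinal.cantorFunctionAux (1 / 4) (fun n => @decide (b n ∈ x) (Classical.propDecidable _)) n =
        Set.indicator {x : LowerSet I | b n ∈ x} (fun _ => (1 / 4 : ℝ) ^ n) x := by
    intro n x
    unfold Cardinal.cantorFunctionAux
    by_cases h : b n ∈ x
    · rw [Set.indicator_of_mem (show x ∈ {x : LowerSet I | b n ∈ x} from h)]
      simp [h]
    · rw [Set.indicator_of_notMem (show x ∉ {x : LowerSet I | b n ∈ x} from h)]
      simp [h]
  have hF : F b = fun x => ∑' n, Set.indicator {x : LowerSet I | b n ∈ x}
      (fun _ => (1 / 4 : ℝ) ^ n) x := by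
    funext x
    unfold F Cardinal.cantorFunction
    exact tsum_congr fun n => hterm n x
  rw [hF]
  apply continuous_tsum (u := fun n => (1 / 4 : ℝ) ^ n)
  · intro n
    apply Continuous.indicator _ continuous_const
    intro a ha
    rw [(isClopenMem (b n)).frontier_eq] at ha
    exact absurd ha (Set.notMem_empty _)
  · exact summable_geometric_of_lt_one (by norm_num) (by norm_num)
  · intro n x
    by_cases h : x ∈ {x : LowerSet I | b n ∈ x}
    · rw [Set.indicator_of_mem h]
      rw [Real.norm_of_nonneg (by positivity)]
    · rw [Set.indicator_of_notMem h]
      rw [norm_zero]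
      positivity

end Pool.Agent.Helper330.DPK
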