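import Pool.Agent.Helper330.DPK.Defs

set_option autoImplicit false
set_option linter.all false

/-!
# Compact images of the space of continuous functions on a linearly ordered compact space

Definitions for the construction of a linearly ordered compact space `K` such that `C_p(K)` maps
continuously onto a nonmetrizable compact space, from a family of Kurepa type with finitely
deciding sequences (`KF` below).
-/

namespace Pool.Agent.Helper330.DPK
open Set Filter Topology


theorem countBase (e : W1 → W1 → ℕ) (B : W1 → ℕ → W1 → Prop) (S : Set (W1 → ℕ))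
    (hS : ∀ s ∈ S, ∀ a, ∃ δ m m' i G, δ ≤ a ∧ (∀ z ∈ G, z.1 ≤ a) ∧
      ∀ x, x ≤ a → s x = base e B a δ m m' i G x) (a : W1) :
    ∃ c : (W1 → ℕ) → ℕ, ∀ s ∈ S, ∀ t ∈ S, c s = c t → ∀ x, x ≤ a → s x = t x := by
  classical
  have hIio : (Set.Iio a).Countable := by
    rw [← Cardinal.le_aleph0_iff_set_countable]
    have h := Cardinal.mk_Iio_ord_toType a
    have h2 : (Cardinal.aleph 1 : Cardinal.{0}) = Order.succ Cardinal.aleph0 := by
      rw [Cardinal.succ_aleph0]
    exact Order.lt_succ_iff.1 (lt_of_lt_of_eq h h2)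
  have hIic : (Set.Iic a).Countable := by
    rw [← Set.Iio_insert]
    exact hIio.insert a
  haveI : Countable (Set.Iic a) := hIic.to_subtype
  obtain ⟨ι, hι⟩ := exists_injective_nat
    ((Set.Iic a) × ℕ × ℕ × Option ℕ × Finset ((Set.Iic a) × ℕ))
  have key : ∀ s ∈ S, ∃ p : (Set.Iic a) × ℕ × ℕ × Option ℕ × Finset ((Set.Iic a) × ℕ),
      ∀ x, x ≤ a → s x = base e B a p.1 p.2.1 p.2.2.1 p.2.2.2.1
        (p.2.2.2.2.image (fun w => ((w.1 : W1), w.2))) x := by
    intro s hs
    obtain ⟨δ, m, m', i, G, h1, h2, h3⟩ := hS s hs a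
    refine ⟨(⟨δ, h1⟩, m, m', i, G.attach.image (fun z => (⟨z.1.1, h2 z.1 z.2⟩, z.1.2))), ?_⟩
    intro x hx
    have e1 : (G.attach.image (fun z => ((⟨z.1.1, h2 z.1 z.2⟩ : Set.Iic a), z.1.2))).image
        (fun w => ((w.1 : W1), w.2)) = G := by
      ext z
      simp only [Finset.mem_image, Finset.mem_attach, true_and, Subtype.exists]
      constructor
      · rintro ⟨w, ⟨u, hu, rfl⟩, rfl⟩
        exact hu
      · intro hz
        exact ⟨_, ⟨z, hz, rfl⟩, rfl⟩
    simp only
    rw [e1]
    exact h3 x hx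
  choose! p hp using key
  refine ⟨fun s => ι (p s), ?_⟩
  intro s hs t ht hst x hx
  have e1 : p s = p t := hι hst
  rw [hp s hs x hx, hp t ht x hx, e1]

end Pool.Agent.Helper330.DPK
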