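import Pool.Agent.Helper330.DPK.Defs

set_option autoImplicit false
set_option linter.all false

/-!
# Compact images of the space of continuous functions on a linearly ordered compact space

Definitions for the construction of a linearly ordered compact space `K` such that `C_p(K)` maps
continuously onto a nonmetrizable compact space, from a family of Kurepa type with finitely
deciding sequences (`KF` below).
-/

namespace Pool.Agent.Helper330.DPK
open Set Filter Topology


open Classical in
theorem diffF_term {I : Type} [LinearOrder I] {W : Type} (S : Sys I W) (ξ : W) (b : ℕ → I) (s : I)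
    (n : ℕ) :
    Cardinal.cantorFunctionAux (1 / 4) (fun n => decide (b n ∈ S.xp ξ s)) n -
      Cardinal.cantorFunctionAux (1 / 4) (fun n => decide (b n ∈ S.xm ξ s)) n =
      Cardinal.cantorFunctionAux (1 / 4) (fun n => decide (S.E ξ (b n) s)) n := by
  unfold Cardinal.cantorFunctionAux
  by_cases hE : S.E ξ (b n) s
  · have h1 : b n ∈ S.xp ξ s := Or.inr hE
    have h2 : b n ∉ S.xm ξ s := fun h => h.2 hE
    simp only [h1, h2, hE, decide_true, decide_false, cond_true, cond_false, sub_zero]
  · have h3 : b n ∈ S.xp ξ s ↔ b n ∈ S.xm ξ s := by
      constructor
      · rintro (h | h)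
        · refine ⟨lt_of_le_of_ne h ?_, hE⟩
          intro heq
          apply hE
          rw [heq]
          exact (S.eqv ξ).refl s
        · exact absurd h hE
      · intro h
        exact Or.inl h.1.le
    simp only [h3, hE, decide_false, cond_false, sub_self]

open Classical in
theorem diffF {I : Type} [LinearOrder I] {W : Type} (S : Sys I W) (ξ : W) (b : ℕ → I) (s : I) :
    F b (S.xp ξ s) - F b (S.xm ξ s) =
      Cardinal.cantorFunction (1 / 4) (fun n => decide (S.E ξ (b n) s)) := by
  have hs : ∀ f : ℕ → Bool, Summable (Cardinal.cantorFunctionAux (1 / 4) f) := fun f =>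
    Cardinal.summable_cantor_function f (by norm_num) (by norm_num)
  unfold F Cardinal.cantorFunction
  rw [← Summable.tsum_sub (hs _) (hs _)]
  exact tsum_congr fun n => diffF_term S ξ b s n

end Pool.Agent.Helper330.DPK
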