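import Pool.Agent.Helper330.DPK.Defs

set_option autoImplicit false
set_option linter.all false

/-!
# Compact images of the space of continuous functions on a linearly ordered compact space

Definitions for the construction of a linearly ordered compact space `K` such that `C_p(K)` maps
continuously onto a nonmetrizable compact space, from a family of Kurepa type with finitely
deciding sequences (`KF` below).
-/

namespace Pool.Agent.Helper330.DPK
open Set Filter Topology


theorem limCantor {B : Type} (l : Filter B) (h : B → ℕ → Bool) (t : ℕ → Bool)
    (ht : ∀ n, ∀ᶠ b in l, h b n = t n) :
    Tendsto (fun b => Cardinal.cantorFunction (1 / 4) (h b)) l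
      (𝓝 (Cardinal.cantorFunction (1 / 4) t)) := by
  unfold Cardinal.cantorFunction
  refine tendsto_tsum_of_dominated_convergence (bound := fun n : ℕ => (1 / 4 : ℝ) ^ n)
    (summable_geometric_of_lt_one (by norm_num) (by norm_num)) ?_ ?_
  · intro n
    apply tendsto_const_nhds.congr'
    filter_upwards [ht n] with b hb
    unfold Cardinal.cantorFunctionAux
    rw [hb]
  · refine Eventually.of_forall fun b n => ?_
    unfold Cardinal.cantorFunctionAux
    cases h b n
    · simp
    · simp

end Pool.Agent.Helper330.DPK
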