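import Pool.Agent.Helper330.DPK.Defs
import Pool.Agent.Helper330.DPK.P_diffF
import Pool.Agent.Helper330.DPK.P_limCantor
import Pool.Agent.Helper330.DPK.P_catchT

set_option autoImplicit false
set_option linter.all false

/-!
# Compact images of the space of continuous functions on a linearly ordered compact space

Definitions for the construction of a linearly ordered compact space `K` such that `C_p(K)` maps
continuously onto a nonmetrizable compact space, from a family of Kurepa type with finitely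
deciding sequences (`KF` below).
-/

namespace Pool.Agent.Helper330.DPK
open Set Filter Topology


open Classical in
theorem traceT {I : Type} [LinearOrder I] {W : Type} (S : Sys I W) (ξ : W)
    (g : LowerSet I → ℝ) (hg : Continuous g) (i : ℕ)
    (h : (fun x : S.Aset ξ => g x.1) ∈ closure {z : S.Aset ξ → ℝ | ∃ b : ℕ → I,
      z = (fun x => F b x.1) ∧ S.v (b (S.v (b 0) ξ + 1)) ξ = i}) :
    ∃ t : ℕ → I, S.v (t (S.v (t 0) ξ + 1)) ξ = i ∧ ∀ s, g (S.xp ξ s) - g (S.xm ξ s) =
      Cardinal.cantorFunction (1 / 4) (fun n => decide (S.E ξ (t n) s)) := by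
  obtain ⟨Z, hZ⟩ : ∃ Z : Set (S.Aset ξ → ℝ), Z = {z : S.Aset ξ → ℝ | ∃ b : ℕ → I,
      z = (fun x => F b x.1) ∧ S.v (b (S.v (b 0) ξ + 1)) ξ = i} := ⟨_, rfl⟩
  rw [← hZ, mem_closure_iff_comap_neBot] at h
  haveI := h
  let U : Ultrafilter Z := Ultrafilter.of (comap Subtype.val (𝓝 (fun x : S.Aset ξ => g x.1)))
  have hU : Tendsto (Subtype.val : Z → S.Aset ξ → ℝ) (U : Filter _)
      (𝓝 (fun x : S.Aset ξ => g x.1)) :=
    tendsto_comap.mono_left (Ultrafilter.of_le _)
  have hz : ∀ z : Z, ∃ b : ℕ → I, z.1 = (fun x => F b x.1) ∧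
      S.v (b (S.v (b 0) ξ + 1)) ξ = i := fun z => (Set.ext_iff.1 hZ z.1).1 z.2
  choose bb hbb using hz
  have hT : ∀ x ∈ S.Aset ξ, Tendsto (fun b => F (bb b) x) (U : Filter _) (𝓝 (g x)) := by
    intro x hx
    have h1 := (tendsto_pi_nhds.1 hU) ⟨x, hx⟩
    have h2 : (fun z : Z => z.1 ⟨x, hx⟩) =
        fun b => F (bb b) x := by
      funext z
      rw [(hbb z).1]
    rw [h2] at h1
    exact h1
  choose t ht using fun n => catchT S ξ U bb g hg hT n
  refine ⟨t, ?_, ?_⟩
  · obtain ⟨b, hb0, hb1⟩ := ((ht 0).and (ht (S.v (t 0) ξ + 1))).exists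
    have h1 := S.hv ξ _ _ hb0
    have h2 := S.hv ξ _ _ hb1
    have h3 := (hbb b).2
    rw [h1] at h3
    rw [← h2, h3]
  · intro s
    have hp : S.xp ξ s ∈ S.Aset ξ := Or.inr (Or.inr ⟨s, Or.inr rfl⟩)
    have hm : S.xm ξ s ∈ S.Aset ξ := Or.inr (Or.inr ⟨s, Or.inl rfl⟩)
    have h1 := (hT _ hp).sub (hT _ hm)
    have h2 := limCantor (U : Filter _) (fun b n => decide (S.E ξ (bb b n) s))
      (fun n => decide (S.E ξ (t n) s)) (fun n => by
        filter_upwards [ht n] with b hb
        apply decide_eq_decide.2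
        exact ⟨fun h => (S.eqv ξ).trans ((S.eqv ξ).symm hb) h, fun h => (S.eqv ξ).trans hb h⟩)
    have h3 : (fun b => F (bb b) (S.xp ξ s) - F (bb b) (S.xm ξ s)) =
        fun b => Cardinal.cantorFunction (1 / 4) (fun n => decide (S.E ξ (bb b n) s)) := by
      funext b
      exact diffF S ξ (bb b) s
    rw [h3] at h1
    exact tendsto_nhds_unique h1 h2

end Pool.Agent.Helper330.DPK
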