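import Pool.Agent.Helper330.DPK.Defs
import Pool.Agent.Helper330.DPK.P_traceT

set_option autoImplicit false
set_option linter.all false

/-!
# Compact images of the space of continuous functions on a linearly ordered compact space

Definitions for the construction of a linearly ordered compact space `K` such that `C_p(K)` maps
continuously onto a nonmetrizable compact space, from a family of Kurepa type with finitely
deciding sequences (`KF` below).
-/

namespace Pool.Agent.Helper330.DPK
open Set Filter Topology


theorem disj {I : Type} [LinearOrder I] {W : Type} (S : Sys I W) (ξ : W)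
    (g : LowerSet I → ℝ) (hg : Continuous g) (i i' : ℕ) (hi : i ≠ i')
    (h : (fun x : S.Aset ξ => g x.1) ∈ closure {z : S.Aset ξ → ℝ | ∃ b : ℕ → I,
      z = (fun x => F b x.1) ∧ S.v (b (S.v (b 0) ξ + 1)) ξ = i})
    (h' : (fun x : S.Aset ξ => g x.1) ∈ closure {z : S.Aset ξ → ℝ | ∃ b : ℕ → I,
      z = (fun x => F b x.1) ∧ S.v (b (S.v (b 0) ξ + 1)) ξ = i'}) : False := by
  classical
  obtain ⟨t, ht1, ht2⟩ := traceT S ξ g hg i h
  obtain ⟨t', ht1', ht2'⟩ := traceT S ξ g hg i' h'
  have hfun : ∀ s, (fun n => decide (S.E ξ (t n) s)) = (fun n => decide (S.E ξ (t' n) s)) := by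
    intro s
    apply Cardinal.cantorFunction_injective (c := 1 / 4) (by norm_num) (by norm_num)
    rw [← ht2 s, ← ht2' s]
  have hE : ∀ n, S.E ξ (t' n) (t n) := by
    intro n
    have h1 := congrFun (hfun (t n)) n
    have h2 : decide (S.E ξ (t n) (t n)) = true := decide_eq_true ((S.eqv ξ).refl _)
    have h3 : decide (S.E ξ (t' n) (t n)) = true := by
      rw [← h2]
      exact h1.symm
    exact of_decide_eq_true h3
  have hv : ∀ n, S.v (t' n) ξ = S.v (t n) ξ := fun n => S.hv ξ _ _ (hE n)
  apply hi
  rw [← ht1, ← ht1', hv, hv]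

end Pool.Agent.Helper330.DPK
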