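import Pool.Agent.Helper330.DPK.Defs
import Pool.Agent.Helper330.DPK.P_approx

set_option autoImplicit false
set_option linter.all false

/-!
# Compact images of the space of continuous functions on a linearly ordered compact space

Definitions for the construction of a linearly ordered compact space `K` such that `C_p(K)` maps
continuously onto a nonmetrizable compact space, from a family of Kurepa type with finitely
deciding sequences (`KF` below).
-/

namespace Pool.Agent.Helper330.DPK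
open Set Filter Topology


theorem base_eq (e : W1 → W1 → ℕ) (B : W1 → ℕ → W1 → Prop) (s : W1 → ℕ) (a δ : W1) (m m' : ℕ)
    (i : Option ℕ) (A : Set W1) (hA : A.Finite) (hAa : ∀ x ∈ A, x ≤ a)
    (h1 : ∀ x, x ≤ a → x < δ → s x = (match (generalizing := false) i with
      | none => b0 e (fun c => c = δ ∨ (c < δ ∧ B δ m' c)) x
      | some n => b1 e (B δ m) (fun c => c = δ ∨ (c < δ ∧ B δ m' c)) n x))
    (h2 : ∀ x, x ≤ a → δ ≤ x → x ∉ A → s x = (match (generalizing := false) i with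
      | none => e a x
      | some _ => 0)) :
    ∃ G : Finset (W1 × ℕ), (∀ z ∈ G, z.1 ≤ a) ∧ ∀ x, x ≤ a → s x = base e B a δ m m' i G x := by
  classical
  refine ⟨hA.toFinset.image (fun x => (x, s x)), ?_, ?_⟩
  · intro z hz
    rw [Finset.mem_image] at hz
    obtain ⟨x, hx, rfl⟩ := hz
    exact hAa x (by simpa using hx)
  · intro x hx
    unfold base
    split_ifs with h3 h4
    · have h5 := h3.choose_spec
      rw [Finset.mem_image] at h5
      obtain ⟨y, -, hy⟩ := h5
      have h6 : y = x := congrArg Prod.fst hy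
      have h7 : s y = h3.choose := congrArg Prod.snd hy
      rw [← h7, h6]
    · exact h1 x hx h4
    · refine h2 x hx (not_lt.1 h4) ?_
      intro hxA
      apply h3
      refine ⟨s x, ?_⟩
      rw [Finset.mem_image]
      exact ⟨x, by simpa using hxA, rfl⟩

theorem skBase (e : W1 → W1 → ℕ) (he : ∀ a m, {x | x < a ∧ e a x ≤ m}.Finite)
    (hc : ∀ a b, {x | x < a ∧ x < b ∧ e a x ≠ e b x}.Finite) (B : W1 → ℕ → W1 → Prop)
    (s : W1 → ℕ) (hs : s ∈ SK e B) (a : W1) :
    ∃ δ m m' i G, δ ≤ a ∧ (∀ z ∈ G, z.1 ≤ a) ∧ ∀ x, x ≤ a → s x = base e B a δ m m' i G x := by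
  obtain ⟨X, C, ⟨hC1, hC2, hC3⟩, hs⟩ := hs
  obtain ⟨δ, hδa, hδ, hap, hf1, hf2⟩ := approx e he hc C hC1 hC2 a
  obtain ⟨m, m', hm, hm'⟩ : ∃ m m', (∀ x, x < δ → (X x ↔ B δ m x)) ∧
      (∀ x, x < δ → (C x ↔ B δ m' x)) := by
    rcases hδ with hδ | hδ
    · exact ⟨0, 0, fun x hx => absurd hx (not_lt.2 (hδ x)), fun x hx => absurd hx (not_lt.2 (hδ x))⟩
    · obtain ⟨⟨m, hm⟩, ⟨m', hm'⟩⟩ := hC3 δ hδ
      exact ⟨m, m', hm, hm'⟩
  have hb0 : ∀ x, x < δ → b0 e C x = b0 e (fun c => c = δ ∨ (c < δ ∧ B δ m' c)) x := by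
    intro x hx
    unfold b0
    rw [hap x hx (B δ m') hm']
  rcases hs with rfl | ⟨n, rfl⟩
  · obtain ⟨G, hG1, hG2⟩ := base_eq e B (b0 e C) a δ m m' none _ hf1 (fun x hx => hx.2.1)
      (fun x _ hx => hb0 x hx) (by
        intro x hx1 hx2 hx3
        by_contra h
        exact hx3 ⟨hx2, hx1, h⟩)
    exact ⟨δ, m, m', none, G, hδa, hG1, hG2⟩
  · obtain ⟨G, hG1, hG2⟩ := base_eq e B (b1 e X C n) a δ m m' (some n) _ (hf2 n)
      (fun x hx => hx.2.1)
      (by
        intro x _ hx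
        show b1 e X C n x = b1 e (B δ m) (fun c => c = δ ∨ (c < δ ∧ B δ m' c)) n x
        unfold b1
        rw [hb0 x hx]
        by_cases h : X x ∧ b0 e (fun c => c = δ ∨ (c < δ ∧ B δ m' c)) x = n
        · rw [if_pos h, if_pos ⟨(hm x hx).1 h.1, h.2⟩]
        · rw [if_neg h, if_neg (fun h' => h ⟨(hm x hx).2 h'.1, h'.2⟩)]) (by
        intro x hx1 hx2 hx3
        show b1 e X C n x = 0
        unfold b1
        rw [if_neg]
        rintro ⟨-, h⟩
        exact hx3 ⟨hx2, hx1, h⟩)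
    exact ⟨δ, m, m', some n, G, hδa, hG1, hG2⟩

end Pool.Agent.Helper330.DPK
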