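import Pool.Agent.Helper330.DPK.Defs
import Pool.Agent.Helper330.DPK.P_skBase
import Pool.Agent.Helper330.DPK.P_countBase

set_option autoImplicit false
set_option linter.all false

/-!
# Compact images of the space of continuous functions on a linearly ordered compact space

Definitions for the construction of a linearly ordered compact space `K` such that `C_p(K)` maps
continuously onto a nonmetrizable compact space, from a family of Kurepa type with finitely
deciding sequences (`KF` below).
-/

namespace Pool.Agent.Helper330.DPK
open Set Filter Topology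


theorem dpKF (e : W1 → W1 → ℕ) (he : ∀ a m, {x | x < a ∧ e a x ≤ m}.Finite)
    (hc : ∀ a b, {x | x < a ∧ x < b ∧ e a x ≠ e b x}.Finite) (h : DiamondPlus) : KF := by
  obtain ⟨B, hB⟩ := h
  refine ⟨SK e B, ?_, ?_⟩
  · intro a
    exact countBase e B (SK e B) (fun s hs a => skBase e he hc B s hs a) a
  · intro X
    obtain ⟨C, hC1, hC2, hC3⟩ := hB X
    have hcap : Captured B X C := ⟨hC1, hC2, hC3⟩
    refine ⟨fun n => Nat.casesOn n (b0 e C) (fun n => b1 e X C n), ?_, ?_⟩
    · intro n
      cases n with
      | zero => exact ⟨X, C, hcap, Or.inl rfl⟩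
      | succ n => exact ⟨X, C, hcap, Or.inr ⟨n, rfl⟩⟩
    · intro x
      refine ⟨fun hx => ?_, fun hx => ?_⟩
      · show b1 e X C (b0 e C x) x = 1
        unfold b1
        rw [if_pos ⟨hx, rfl⟩]
      · show b1 e X C (b0 e C x) x = 0
        unfold b1
        rw [if_neg (fun h => hx h.1)]

end Pool.Agent.Helper330.DPK
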