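import Pool.Agent.Helper330.DPK.Defs

set_option autoImplicit false
set_option linter.all false

/-!
# Compact images of the space of continuous functions on a linearly ordered compact space

Definitions for the construction of a linearly ordered compact space `K` such that `C_p(K)` maps
continuously onto a nonmetrizable compact space, from a family of Kurepa type with finitely
deciding sequences (`KF` below).
-/

namespace Pool.Agent.Helper330.DPK
open Set Filter Topology


theorem separate {T A : Type} [TopologicalSpace T] [Countable A] (R : T → A → ℝ)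
    (hR : Continuous R) (P Q : Set T)
    (h : ∀ g, ¬ (R g ∈ closure (R '' P) ∧ R g ∈ closure (R '' Q))) :
    ∃ φ : T → ℝ, Continuous φ ∧ (∀ g, 0 ≤ φ g ∧ φ g ≤ 1) ∧ (∀ g ∈ P, φ g = 1) ∧
      (∀ g ∈ Q, φ g = 0) := by
  rcases P.eq_empty_or_nonempty with rfl | hP
  · exact ⟨fun _ => 0, continuous_const, fun _ => ⟨le_rfl, zero_le_one⟩,
      fun g hg => absurd hg (Set.notMem_empty g), fun _ _ => rfl⟩
  rcases Q.eq_empty_or_nonempty with rfl | hQ
  · exact ⟨fun _ => 1, continuous_const, fun _ => ⟨zero_le_one, le_rfl⟩, fun _ _ => rfl,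
      fun g hg => absurd hg (Set.notMem_empty g)⟩
  haveI : TopologicalSpace.MetrizableSpace (A → ℝ) :=
    TopologicalSpace.metrizableSpace_of_t3_secondCountable (A → ℝ)
  letI := TopologicalSpace.metrizableSpaceMetric (A → ℝ)
  have hP' : (R '' P).Nonempty := hP.image R
  have hQ' : (R '' Q).Nonempty := hQ.image R
  have hpos : ∀ g, 0 < Metric.infDist (R g) (R '' P) + Metric.infDist (R g) (R '' Q) := by
    intro g
    have h1 : 0 ≤ Metric.infDist (R g) (R '' P) := Metric.infDist_nonneg
    have h2 : 0 ≤ Metric.infDist (R g) (R '' Q) := Metric.infDist_nonneg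
    by_contra hcon
    have e1 : Metric.infDist (R g) (R '' P) = 0 := by linarith [not_lt.1 hcon]
    have e2 : Metric.infDist (R g) (R '' Q) = 0 := by linarith [not_lt.1 hcon]
    exact h g ⟨(Metric.mem_closure_iff_infDist_zero hP').2 e1,
      (Metric.mem_closure_iff_infDist_zero hQ').2 e2⟩
  refine ⟨fun g => Metric.infDist (R g) (R '' Q) /
    (Metric.infDist (R g) (R '' P) + Metric.infDist (R g) (R '' Q)), ?_, ?_, ?_, ?_⟩
  · have c1 : Continuous fun g => Metric.infDist (R g) (R '' P) :=
      (Metric.continuous_infDist_pt _).comp hR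
    have c2 : Continuous fun g => Metric.infDist (R g) (R '' Q) :=
      (Metric.continuous_infDist_pt _).comp hR
    exact c2.div (c1.add c2) fun g => (hpos g).ne'
  · intro g
    have h1 : 0 ≤ Metric.infDist (R g) (R '' P) := Metric.infDist_nonneg
    have h2 : 0 ≤ Metric.infDist (R g) (R '' Q) := Metric.infDist_nonneg
    exact ⟨div_nonneg h2 (hpos g).le, (div_le_one (hpos g)).2 (by linarith)⟩
  · intro g hg
    have h0 : Metric.infDist (R g) (R '' P) = 0 :=
      Metric.infDist_zero_of_mem (Set.mem_image_of_mem R hg)
    have := hpos g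
    rw [h0, zero_add] at this
    show Metric.infDist (R g) (R '' Q) /
      (Metric.infDist (R g) (R '' P) + Metric.infDist (R g) (R '' Q)) = 1
    rw [h0, zero_add, div_self this.ne']
  · intro g hg
    have h0 : Metric.infDist (R g) (R '' Q) = 0 :=
      Metric.infDist_zero_of_mem (Set.mem_image_of_mem R hg)
    show Metric.infDist (R g) (R '' Q) /
      (Metric.infDist (R g) (R '' P) + Metric.infDist (R g) (R '' Q)) = 0
    rw [h0, zero_div]

end Pool.Agent.Helper330.DPK
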