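import Pool.Agent.Helper330.DPK.Defs
import Pool.Agent.Helper330.DPK.P_disj
import Pool.Agent.Helper330.DPK.P_cntA
import Pool.Agent.Helper330.DPK.P_separate

set_option autoImplicit false
set_option linter.all false

/-!
# Compact images of the space of continuous functions on a linearly ordered compact space

Definitions for the construction of a linearly ordered compact space `K` such that `C_p(K)` maps
continuously onto a nonmetrizable compact space, from a family of Kurepa type with finitely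
deciding sequences (`KF` below).
-/

namespace Pool.Agent.Helper330.DPK
open Set Filter Topology


theorem phi {I : Type} [LinearOrder I] {W : Type} (S : Sys I W) (ξ : W) :
    ∃ φ : {g : LowerSet I → ℝ // Continuous g} → ℝ, Continuous φ ∧
      (∀ g, 0 ≤ φ g ∧ φ g ≤ 1) ∧ ∀ (b : ℕ → I) (hb : Continuous (F b)),
        (S.v (b (S.v (b 0) ξ + 1)) ξ = 1 → φ ⟨F b, hb⟩ = 1) ∧
        (S.v (b (S.v (b 0) ξ + 1)) ξ = 0 → φ ⟨F b, hb⟩ = 0) := by
  haveI : Countable (S.Aset ξ) := (cntA S ξ).to_subtype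
  let R : {g : LowerSet I → ℝ // Continuous g} → S.Aset ξ → ℝ := fun g x => g.1 x.1
  have hR : Continuous R := continuous_pi fun x =>
    (continuous_apply (x.1 : LowerSet I)).comp continuous_subtype_val
  let P : ℕ → Set {g : LowerSet I → ℝ // Continuous g} := fun i =>
    {g | ∃ b : ℕ → I, g.1 = F b ∧ S.v (b (S.v (b 0) ξ + 1)) ξ = i}
  have himg : ∀ i, R '' (P i) ⊆ {z : S.Aset ξ → ℝ | ∃ b : ℕ → I,
      z = (fun x => F b x.1) ∧ S.v (b (S.v (b 0) ξ + 1)) ξ = i} := by
    rintro i z ⟨g, ⟨b, hb, hv⟩, rfl⟩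
    refine ⟨b, ?_, hv⟩
    funext x
    show g.1 x.1 = F b x.1
    rw [hb]
  obtain ⟨φ, h1, h2, h3, h4⟩ := separate R hR (P 1) (P 0) (by
    rintro g ⟨hg1, hg0⟩
    exact disj S ξ g.1 g.2 1 0 (by norm_num) (closure_mono (himg 1) hg1)
      (closure_mono (himg 0) hg0))
  refine ⟨φ, h1, h2, fun b hb => ⟨fun hv => ?_, fun hv => ?_⟩⟩
  · exact h3 _ ⟨b, rfl, hv⟩
  · exact h4 _ ⟨b, rfl, hv⟩

end Pool.Agent.Helper330.DPK
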