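import Pool.Agent.Helper330.DPK.Defs
import Pool.Agent.Helper330.DPK.P_contF
import Pool.Agent.Helper330.DPK.P_phi
import Pool.Agent.Helper330.DPK.P_binary

set_option autoImplicit false
set_option linter.all false

/-!
# Compact images of the space of continuous functions on a linearly ordered compact space

Definitions for the construction of a linearly ordered compact space `K` such that `C_p(K)` maps
continuously onto a nonmetrizable compact space, from a family of Kurepa type with finitely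
deciding sequences (`KF` below).
-/

namespace Pool.Agent.Helper330.DPK
open Set Filter Topology


theorem image_ {I : Type} [LinearOrder I] {W : Type} (S : Sys I W)
    (hX : ∀ X : W → Prop, ∃ b : ℕ → I, ∀ ξ,
      (X ξ → S.v (b (S.v (b 0) ξ + 1)) ξ = 1) ∧ (¬ X ξ → S.v (b (S.v (b 0) ξ + 1)) ξ = 0))
    (j : W × ℕ → W) (hj : Function.Injective j) :
    ∃ f : {g : LowerSet I → ℝ // Continuous g} → (W → Set.Icc (0 : ℝ) 1),
      Continuous f ∧ Function.Surjective f := by
  choose φ hφc hφb hφv using fun ξ => phi S ξ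
  have hsum : Summable (fun n : ℕ => (1 / 2 : ℝ) ^ (n + 1)) :=
    (summable_nat_add_iff 1).mpr summable_geometric_two
  have htot : ∑' n : ℕ, (1 / 2 : ℝ) ^ (n + 1) = 1 := by
    have h1 : ∀ n : ℕ, (1 / 2 : ℝ) ^ (n + 1) = (1 / 2) * (1 / 2) ^ n := fun n => pow_succ' _ _
    simp_rw [h1]
    rw [tsum_mul_left, tsum_geometric_two]
    norm_num
  have hterm0 : ∀ (ξ : W) (n : ℕ) (g : {g : LowerSet I → ℝ // Continuous g}),
      0 ≤ (1 / 2 : ℝ) ^ (n + 1) * φ ξ g := fun ξ n g =>
    mul_nonneg (by positivity) (hφb ξ g).1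
  have hterm1 : ∀ (ξ : W) (n : ℕ) (g : {g : LowerSet I → ℝ // Continuous g}),
      (1 / 2 : ℝ) ^ (n + 1) * φ ξ g ≤ (1 / 2 : ℝ) ^ (n + 1) := fun ξ n g =>
    mul_le_of_le_one_right (by positivity) (hφb ξ g).2
  have hs : ∀ (g : {g : LowerSet I → ℝ // Continuous g}) (w : W),
      Summable (fun n : ℕ => (1 / 2 : ℝ) ^ (n + 1) * φ (j (w, n)) g) := fun g w =>
    Summable.of_nonneg_of_le (fun n => hterm0 _ n g) (fun n => hterm1 _ n g) hsum
  have hmem : ∀ (g : {g : LowerSet I → ℝ // Continuous g}) (w : W),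
      (∑' n : ℕ, (1 / 2 : ℝ) ^ (n + 1) * φ (j (w, n)) g) ∈ Set.Icc (0 : ℝ) 1 := by
    intro g w
    refine ⟨tsum_nonneg fun n => hterm0 _ n g, ?_⟩
    exact le_of_le_of_eq ((hs g w).tsum_le_tsum (fun n => hterm1 _ n g) hsum) htot
  refine ⟨fun g w => ⟨∑' n : ℕ, (1 / 2 : ℝ) ^ (n + 1) * φ (j (w, n)) g, hmem g w⟩, ?_, ?_⟩
  · refine continuous_pi fun w => ?_
    refine Continuous.subtype_mk ?_ _
    refine continuous_tsum (fun n => continuous_const.mul (hφc _)) hsum (fun n g => ?_)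
    rw [Real.norm_of_nonneg (hterm0 _ n g)]
    exact hterm1 _ n g
  · intro y
    choose d hd using fun w => binary (y w) (y w).2.1 (y w).2.2
    obtain ⟨b, hb⟩ := hX (fun ξ => ∃ w n, j (w, n) = ξ ∧ d w n = true)
    refine ⟨⟨F b, contF b⟩, ?_⟩
    funext w
    apply Subtype.ext
    show ∑' n : ℕ, (1 / 2 : ℝ) ^ (n + 1) * φ (j (w, n)) ⟨F b, contF b⟩ = (y w : ℝ)
    rw [hd w]
    refine tsum_congr fun n => ?_
    congr 1
    by_cases h : d w n = true
    · rw [if_pos h]
      exact (hφv (j (w, n)) b (contF b)).1 ((hb (j (w, n))).1 ⟨w, n, rfl, h⟩)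
    · rw [if_neg h]
      refine (hφv (j (w, n)) b (contF b)).2 ((hb (j (w, n))).2 ?_)
      rintro ⟨w', n', he, hd'⟩
      have h2 := hj he
      rw [Prod.mk.injEq] at h2
      rw [h2.1, h2.2] at hd'
      exact h hd'

end Pool.Agent.Helper330.DPK
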