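import Pool.Agent.Helper330.DPK.Defs

set_option autoImplicit false
set_option linter.all false

/-!
# Compact images of the space of continuous functions on a linearly ordered compact space

Definitions for the construction of a linearly ordered compact space `K` such that `C_p(K)` maps
continuously onto a nonmetrizable compact space, from a family of Kurepa type with finitely
deciding sequences (`KF` below).
-/

namespace Pool.Agent.Helper330.DPK
open Set Filter Topology


theorem injPair : ∃ j : W1 × ℕ → W1, Function.Injective j := by
  have h1 : Cardinal.mk W1 = Cardinal.aleph 1 := Cardinal.mk_ord_toType _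
  have h2 : Cardinal.mk (W1 × ℕ) = Cardinal.aleph 1 := by
    rw [Cardinal.mk_prod, Cardinal.lift_id, Cardinal.lift_id, h1, Cardinal.mk_nat]
    exact Cardinal.aleph_mul_aleph0 1
  obtain ⟨f⟩ := Cardinal.eq.1 (h2.trans h1.symm)
  exact ⟨f, f.injective⟩

end Pool.Agent.Helper330.DPK
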