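import Pool.Agent.Helper330.DPK.Defs

set_option autoImplicit false
set_option linter.all false

/-!
# Compact images of the space of continuous functions on a linearly ordered compact space

Definitions for the construction of a linearly ordered compact space `K` such that `C_p(K)` maps
continuously onto a nonmetrizable compact space, from a family of Kurepa type with finitely
deciding sequences (`KF` below).
-/

namespace Pool.Agent.Helper330.DPK
open Set Filter Topology


theorem lexConv (s r t : Lex (W1 → ℕ)) (h : s ≤ r) (h' : r ≤ t) (a : W1)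
    (hst : ∀ x, x ≤ a → (ofLex s) x = (ofLex t) x) :
    ∀ x, x ≤ a → (ofLex s) x = (ofLex r) x := by
  intro x hx
  by_contra hne
  have hsr : s < r := by
    refine lt_of_le_of_ne h ?_
    rintro rfl
    exact hne rfl
  obtain ⟨i, hi1, hi2⟩ : ∃ i, (∀ j, j < i → (ofLex s) j = (ofLex r) j) ∧
    (ofLex s) i < (ofLex r) i := hsr
  have hia : i ≤ a := by
    by_contra hc
    push Not at hc
    exact hne (hi1 x (lt_of_le_of_lt hx hc))
  have htr : t < r := by
    show ∃ i, (∀ j, j < i → (ofLex t) j = (ofLex r) j) ∧ (ofLex t) i < (ofLex r) i
    refine ⟨i, fun j hj => ?_, ?_⟩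
    · rw [← hst j (hj.le.trans hia)]
      exact hi1 j hj
    · rw [← hst i hia]
      exact hi2
  exact absurd (lt_of_lt_of_le htr h') (lt_irrefl _)

end Pool.Agent.Helper330.DPK
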