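import Pool.Agent.Helper330.DPK.Defs
import Pool.Agent.Helper330.DPK.P_lexConv

set_option autoImplicit false
set_option linter.all false

/-!
# Compact images of the space of continuous functions on a linearly ordered compact space

Definitions for the construction of a linearly ordered compact space `K` such that `C_p(K)` maps
continuously onto a nonmetrizable compact space, from a family of Kurepa type with finitely
deciding sequences (`KF` below).
-/

namespace Pool.Agent.Helper330.DPK
open Set Filter Topology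


theorem kfSys (h : KF) : ∃ (I : Type) (_ : LinearOrder I) (S : Sys I W1),
    ∀ X : W1 → Prop, ∃ b : ℕ → I, ∀ ξ,
      (X ξ → S.v (b (S.v (b 0) ξ + 1)) ξ = 1) ∧
      (¬ X ξ → S.v (b (S.v (b 0) ξ + 1)) ξ = 0) := by
  classical
  obtain ⟨Sset, hc, hX⟩ := h
  refine ⟨{s : Lex (W1 → ℕ) // ofLex s ∈ Sset}, inferInstance,
    { E := fun a s t => ∀ x, x ≤ a → (ofLex s.1) x = (ofLex t.1) x
      eqv := fun a => ⟨fun s x _ => rfl, fun h1 x hx => (h1 x hx).symm,
        fun h1 h2 x hx => (h1 x hx).trans (h2 x hx)⟩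
      conv := fun a s r t h1 h2 h3 => lexConv s.1 r.1 t.1 h1 h2 a h3
      cnt := fun a => by
        obtain ⟨c, hc'⟩ := hc a
        exact ⟨fun s => c (ofLex s.1), fun s t hst => hc' _ s.2 _ t.2 hst⟩
      v := fun s x => (ofLex s.1) x
      hv := fun a s t h1 => h1 a le_rfl }, ?_⟩
  intro X
  obtain ⟨b, hb, hb2⟩ := hX X
  exact ⟨fun n => ⟨toLex (b n), hb n⟩, fun ξ => hb2 ξ⟩

end Pool.Agent.Helper330.DPK
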