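import Pool.Agent.Helper330.DPK.Defs

set_option autoImplicit false
set_option linter.all false

/-!
# Compact images of the space of continuous functions on a linearly ordered compact space

Definitions for the construction of a linearly ordered compact space `K` such that `C_p(K)` maps
continuously onto a nonmetrizable compact space, from a family of Kurepa type with finitely
deciding sequences (`KF` below).
-/

namespace Pool.Agent.Helper330.DPK
open Set Filter Topology


theorem notMetr : ¬ TopologicalSpace.MetrizableSpace (W1 → Set.Icc (0 : ℝ) 1) := by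
  intro hM
  have hfc : FirstCountableTopology (W1 → Set.Icc (0 : ℝ) 1) := by
    letI := TopologicalSpace.metrizableSpaceMetric (W1 → Set.Icc (0 : ℝ) 1)
    infer_instance
  have hunc : ¬ Countable W1 := by
    intro h
    have h1 : Cardinal.mk W1 ≤ Cardinal.aleph0 := Cardinal.mk_le_aleph0_iff.2 h
    have h2 : Cardinal.mk W1 = Cardinal.aleph 1 := Cardinal.mk_ord_toType _
    rw [h2] at h1
    exact absurd h1 (not_le.2 Cardinal.aleph0_lt_aleph_one)
  obtain ⟨f, hf⟩ : ∃ f : W1 → Set.Icc (0 : ℝ) 1, f = fun _ => ⟨0, by norm_num, by norm_num⟩ := ⟨_, rfl⟩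
  obtain ⟨U, hU⟩ := (𝓝 f).exists_antitone_basis
  have h1 : ∀ n, ∃ I : Set W1, I.Finite ∧ ∃ t : W1 → Set (Set.Icc (0 : ℝ) 1),
      (∀ i, t i ∈ 𝓝 (f i)) ∧ I.pi t ⊆ U n := by
    intro n
    have := hU.1.mem_of_mem (i := n) trivial
    rw [nhds_pi, Filter.mem_pi] at this
    exact this
  choose I hI t ht hIt using h1
  have h2 : ∃ w, w ∉ ⋃ n, I n := by
    by_contra hcon
    push Not at hcon
    have h3 : (⋃ n, I n).Countable := Set.countable_iUnion fun n => (hI n).countable
    have h4 : (Set.univ : Set W1).Countable := h3.mono fun w _ => hcon w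
    exact hunc (Set.countable_univ_iff.1 h4)
  obtain ⟨w, hw⟩ := h2
  have hV : {x : W1 → Set.Icc (0 : ℝ) 1 | ((x w : Set.Icc (0 : ℝ) 1) : ℝ) < 1 / 2} ∈ 𝓝 f := by
    apply IsOpen.mem_nhds
    · exact isOpen_lt (continuous_subtype_val.comp (continuous_apply w)) continuous_const
    · rw [hf]
      show (0 : ℝ) < 1 / 2
      norm_num
  obtain ⟨n, -, hn⟩ := hU.1.mem_iff.1 hV
  have h5 : Function.update f w ⟨1, by norm_num, by norm_num⟩ ∈ (I n).pi (t n) := by
    intro i hi
    have hiw : i ≠ w := by
      rintro rfl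
      exact hw (Set.mem_iUnion.2 ⟨n, hi⟩)
    rw [Function.update_of_ne hiw]
    exact mem_of_mem_nhds (ht n i)
  have h6 : ((Function.update f w ⟨1, by norm_num, by norm_num⟩ w : Set.Icc (0 : ℝ) 1) : ℝ) < 1 / 2 :=
    hn (hIt n h5)
  rw [Function.update_self] at h6
  norm_num at h6

end Pool.Agent.Helper330.DPK
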