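import Pool.Agent.Helper330.DPK.Defs
import Pool.Agent.Helper330.DPK.P_image_
import Pool.Agent.Helper330.DPK.P_notMetr
import Pool.Agent.Helper330.DPK.P_injPair
import Pool.Agent.Helper330.DPK.P_kfSys

set_option autoImplicit false
set_option linter.all false

/-!
# Compact images of the space of continuous functions on a linearly ordered compact space

Definitions for the construction of a linearly ordered compact space `K` such that `C_p(K)` maps
continuously onto a nonmetrizable compact space, from a family of Kurepa type with finitely
deciding sequences (`KF` below).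
-/

namespace Pool.Agent.Helper330.DPK
open Set Filter Topology


theorem main_ (h : KF) :
    ∃ (K : Type) (_ : LinearOrder K) (_ : TopologicalSpace K) (_ : OrderTopology K)
      (_ : CompactSpace K) (Y : Type) (_ : TopologicalSpace Y) (_ : CompactSpace Y)
      (_ : T2Space Y) (f : {g : K → ℝ // Continuous g} → Y),
      Continuous f ∧ Function.Surjective f ∧ ¬ TopologicalSpace.MetrizableSpace Y := by
  obtain ⟨I, hI, S, hX⟩ := kfSys h
  obtain ⟨j, hj⟩ := injPair
  obtain ⟨f, hf, hs⟩ := image_ S hX j hj
  have hc : CompactSpace (LowerSet I) := inferInstance
  exact ⟨LowerSet I, inferInstance, topLow I, ordTopLow I, hc, (W1 → Set.Icc (0:ℝ) 1),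
    inferInstance, inferInstance, inferInstance, f, hf, hs, notMetr⟩

end Pool.Agent.Helper330.DPK
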